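import Pool.Agent.MP_f22332_lc.H39.Main

set_option autoImplicit false

namespace Pool.Agent.Results.MP_f22332_lc.NPHard

open Pool.Agent.MP_f22332_lc.H39

/-- Deciding whether `d(X, Y) ≤ k` for perfect matchings `X`, `Y` of a planar bipartite
3-connected graph is NP-hard: every language in NP reduces to it in polynomial time. -/
theorem result (L : N68a2faeb.DecisionProblem) (hL : L ∈ N68a2faeb.NP) :
    ∃ f : List Bool → List ((ℕ × ℕ × ℕ) × (ℕ × ℕ × ℕ)) × List ((ℕ × ℕ × ℕ) × (ℕ × ℕ × ℕ)) ×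
        List ((ℕ × ℕ × ℕ) × (ℕ × ℕ × ℕ)) × ℕ,
      N68a2faeb.IsPolyTime f ∧ ∀ x,
        (graphOf (f x).1).IsBipartite ∧ ThreeConn (graphOf (f x).1) ∧
        IsPM (graphOf (f x).1) (graphOf (f x).2.1) ∧
        IsPM (graphOf (f x).1) (graphOf (f x).2.2.1) ∧
        ∃ Φ, IsFaces (graphOf (f x).1) Φ ∧
          (L x = true ↔ DistLE (graphOf (f x).1) Φ (f x).2.2.2 (graphOf (f x).2.1)
            (graphOf (f x).2.2.1)) := by
  obtain ⟨g, h1, h2⟩ := Pool.Agent.Shared.H27.cookLevin L hL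
  refine ⟨fun x => red (g x), (pt_red.comp h1).isPolyTime, fun x => ?_⟩
  rw [h2]
  exact red_spec (g x)

end Pool.Agent.Results.MP_f22332_lc.NPHard
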